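import Mathlib
import Pool.Agent.H222Z.LIS.Defs
import Pool.Agent.H222Z.LIS.Main

set_option autoImplicit false

namespace Pool.Agent.Results.MP_05a99f_pr.APolylog

open MeasureTheory ProbabilityTheory Filter Topology Pool.Agent.H222Z.LIS

/-- For every random walk with i.i.d. centred steps of finite positive variance and every
`a > 3`, the longest weakly increasing subsequence of its first `n` positions has length at most
`√n (log n) ^ a` with probability tending to one. -/
theorem result {Ω : Type*} [MeasurableSpace Ω] (P : Measure Ω) [IsProbabilityMeasure P]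
    (X : ℕ → Ω → ℝ) (hm : ∀ i, Measurable (X i)) (hind : iIndepFun X P)
    (hid : ∀ i, IdentDistrib (X i) (X 0) P P) (hL2 : MemLp (X 0) 2 P)
    (hmean : ∫ ω, X 0 ω ∂P = 0) (hvar : 0 < Var[X 0; P]) (a : ℝ) (ha : 3 < a) :
    Tendsto (fun n : ℕ => P {ω | (lis (fun k => ∑ i ∈ Finset.range k, X i ω) n : ℝ) ≤
      √n * Real.log n ^ a}) atTop (𝓝 1) :=
  main P X hm hind hid hL2 hmean hvar a ha

end Pool.Agent.Results.MP_05a99f_pr.APolylog
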